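import Pool.Agent.H71.CR.Stmt

/-! Row FNB: only finitely many big atoms. -/

set_option autoImplicit false

open Set Pool.Agent.TK Pool.Agent.H71.VK

namespace Pool.Agent.CR

namespace H51FNB

/-- sequences by recursion -/
lemma seq {α : Type} (a0 : α) (Q : ℕ → (ℕ → α) → α → Prop) (h : ∀ i f, ∃ a, Q i f a)
    (hc : ∀ i f f' a, (∀ j < i, f j = f' j) → Q i f a → Q i f' a) :
    ∃ R : ℕ → α, ∀ i, Q i R (R i) := by
  classical
  choose φ hφ using h
  let g : ℕ → ℕ → α := fun k => Nat.rec (fun _ => a0) (fun i f => Function.update f i (φ i f)) k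
  have hgs : ∀ k, g (k + 1) = Function.update (g k) k (φ k (g k)) := fun k => rfl
  have stab : ∀ k j, j < k → g k j = g (j + 1) j := by
    intro k
    induction k with
    | zero =>
      intro j hj
      omega
    | succ k ih =>
      intro j hj
      rw [hgs]
      by_cases e : j = k
      · subst e
        rw [Function.update_self, hgs, Function.update_self]
      · rw [Function.update_of_ne e]
        exact ih j (by omega)
  refine ⟨fun j => g (j + 1) j, fun i => ?_⟩
  have h1 := hφ i (g i)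
  have e : g (i + 1) i = φ i (g i) := by rw [hgs, Function.update_self]
  have h2 := hc i _ (fun j => g (j + 1) j) _ (fun j hj => stab i j hj) h1
  rw [← e] at h2
  exact h2

/-- the identity is an isomorphism of triples -/
lemma fi_id {C : Type} {N M : St (C × ℕ)} {P : Set ℕ} {L : List ℕ} (hG : N.1 = M.1)
    (h : ∀ l : List ℕ, (∀ x ∈ l, x ∈ P ∨ x ∈ L) → N.2 l = M.2 l) : FI N L P M L P := by
  refine ⟨id, rfl, Set.bijOn_id P, ?_⟩
  intro x hx
  have hp : ∀ z ∈ L.zip L ++ x.map (fun z => (z, id z)), z.1 = z.2 ∧ (z.1 ∈ P ∨ z.1 ∈ L) := by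
    intro z hz
    rcases List.mem_append.1 hz with h1 | h1
    · rw [← dg_eq_zip] at h1
      obtain ⟨h2, h3⟩ := mem_dg.1 h1
      exact ⟨h2, Or.inr h3⟩
    · obtain ⟨w, hw, rfl⟩ := List.mem_map.1 h1
      exact ⟨rfl, Or.inl (hx w hw)⟩
  refine ⟨fun z hz w hw => ?_, fun z hz w hw => ?_, fun q hq => ?_⟩
  · rw [(hp z hz).1, (hp w hw).1]
  · rw [hG, (hp z hz).1, (hp w hw).1]
  · have e : q.map Prod.fst = q.map Prod.snd :=
      List.map_congr_left fun z hz => (hp z (hq z hz)).1
    rw [← e]
    refine h _ fun y hy => ?_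
    obtain ⟨z, hz, rfl⟩ := List.mem_map.1 hy
    exact (hp z (hq z hz)).2

variable {C : Type}

/-- The situation of the row: disjoint big atoms with new replacements. -/
structure Sit (c0 : C) (n : Bd) (b : Rk) (M : St (C × ℕ)) (π : Pr) (S : List ℕ) (F : Ed)
    (v : ℕ → ℕ) (Q : ℕ → List ℕ) (R : ℕ → St (C × ℕ)) : Prop where
  vd : ∀ i, Vd (bn M) ((S, F, ([v i], Q i), true) :: π)
  vc : ∀ i, Vc (bn M) (st (bn M) π) (S ++ zl π) F (v i)
  ra : RA c0 n b M (fun i => st (bn M) ((S, F, ([v i], Q i), true) :: π)) (fun _ => S ++ zl π) R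
  av : ∀ i, ∀ a ∈ dl π, a ∉ st (bn M) ((S, F, ([v i], Q i), true) :: π)
  avF : ∀ i, ∀ e ∈ F, ∀ a ∈ e, a ∉ st (bn M) ((S, F, ([v i], Q i), true) :: π)
  new0 : ∀ i, ∀ ρ : Pr, ¬ FI (R i) (S ++ zl π) (st (bn M) ((S, F, ([v i], Q i), true) :: π))
    M (zl ρ) (st (bn M) ρ)
  new1 : ∀ i, ∀ j < i, ¬ FI (R i) (S ++ zl π) (st (bn M) ((S, F, ([v i], Q i), true) :: π))
    (R j) (S ++ zl π) (st (bn M) ((S, F, ([v j], Q j), true) :: π))

/-- the structure with the replaced blocks -/
noncomputable abbrev fy (M : St (C × ℕ)) (π : Pr) (S : List ℕ) (F : Ed) (v : ℕ → ℕ)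
    (Q : ℕ → List ℕ) (R : ℕ → St (C × ℕ)) (T : Set ℕ) : St (C × ℕ) :=
  rp M (fun i => st (bn M) ((S, F, ([v i], Q i), true) :: π)) (fun _ => S ++ zl π) R T

lemma core (hFNC : T_FNC C) (hBLK : T_BLK C) (hRPB : T_RPB C) (hIOT : T_IOT C) (hINV : T_INV C)
    {c0 : C} {n : Bd} {b : Rk} {M : St (C × ℕ)} {π : Pr} {S : List ℕ} {F : Ed}
    {v : ℕ → ℕ} {Q : ℕ → List ℕ} {R : ℕ → St (C × ℕ)} (sit : Sit c0 n b M π S F v Q R)
    (T T' : Set ℕ) (i : ℕ) (hi : i ∈ T) (hi' : i ∉ T') (h : Equiv.Perm ℕ)
    (hfix : ∀ a ∈ dl π ++ (S ++ F.flatten), h a = a)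
    (hiso : IsoH h (fy M π S F v Q R T) (fy M π S F v Q R T')) : False := by
  obtain ⟨f1, f2, f3⟩ := hFNC c0 n b M π S F v Q R sit.vd sit.vc sit.ra sit.av sit.avF T
  obtain ⟨g1, g2, g3⟩ := hFNC c0 n b M π S F v Q R sit.vd sit.vc sit.ra sit.av sit.avF T'
  have hmp : mp h π = π := mp_fix fun a ha => hfix a (List.mem_append_left _ ha)
  have hSm : S.map h = S := map_fix fun a ha =>
    hfix a (List.mem_append_right _ (List.mem_append_left _ ha))
  have hFm : F.map (List.map h) = F := by
    conv_rhs => rw [← List.map_id F]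
    refine List.map_congr_left fun e he => ?_
    rw [id_eq]
    exact map_fix fun a ha => hfix a (List.mem_append_right _ (List.mem_append_right _
      (List.mem_flatten.2 ⟨e, he, ha⟩)))
  have hLm : (S ++ zl π).map h = S ++ zl π := map_fix fun a ha => by
    rcases List.mem_append.1 ha with h1 | h1
    · exact hfix a (List.mem_append_right _ (List.mem_append_left _ h1))
    · exact hfix a (List.mem_append_left _ (zl_sub_dl π h1))
  obtain ⟨H, -, -⟩ := hIOT _ _ h π hiso
  have hvi := vd_cons.1 (sit.vd i)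
  simp only at hvi
  obtain ⟨-, -, -, hv1, -⟩ := hvi
  have hvU : v i ∈ Ur (st (bn M) π) (S ++ zl π) := hv1 (v i) List.mem_cons_self
  have hbase : ∀ k, v k ∈ st (bn M) ((S, F, ([v k], Q k), true) :: π) := by
    intro k
    have h1 := vd_cons.1 (sit.vd k)
    exact base_mem_cl h1.2.2.2.1 List.mem_cons_self
  -- the image of the base point
  obtain ⟨u, hu⟩ : ∃ u, u = h (v i) := ⟨_, rfl⟩
  have hPh : h '' st (bn M) π = st (bn M) π := by
    have h1 := st_iso h H π
    rw [hmp, f2, g2] at h1
    exact h1.symm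
  have hu1 : u ∈ st (bn M) π := by
    rw [← hPh, hu]
    exact ⟨v i, hvU.1, rfl⟩
  have hu2 : u ∉ S ++ zl π := by
    intro h1
    have h2 : h u = u := by
      rcases List.mem_append.1 h1 with h3 | h3
      · exact hfix u (List.mem_append_right _ (List.mem_append_left _ h3))
      · exact hfix u (List.mem_append_left _ (zl_sub_dl π h3))
    rw [hu] at h2
    have h3 : h (v i) = v i := h.injective h2
    rw [hu, h3] at h1
    exact hvU.2 h1
  have huU : u ∈ Ur (st (bn M) π) (S ++ zl π) := ⟨hu1, hu2⟩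
  -- the images of the points of the block
  have himg : ∀ w ∈ st (bn M) ((S, F, ([v i], Q i), true) :: π),
      cl (bn (fy M π S F v Q R T')) (st (bn M) π) (S ++ zl π) F ([h w], []) =
        h '' st (bn M) ((S, F, ([v i], Q i), true) :: π) := by
    intro w hw
    have h1 := cl_iso h H (st (bn M) π) (S ++ zl π) F ([w], [])
    rw [hPh, hLm, hFm, f3 i w hw] at h1
    exact h1
  have hFI1 : FI (fy M π S F v Q R T) (S ++ zl π) (st (bn M) ((S, F, ([v i], Q i), true) :: π))
      (fy M π S F v Q R T') (S ++ zl π)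
      (cl (bn (fy M π S F v Q R T')) (st (bn M) π) (S ++ zl π) F ([u], [])) := by
    obtain ⟨-, h1, -⟩ := hIOT _ _ h ((S, F, ([v i], []), true) :: π) hiso
    rw [mp_cons] at h1
    simp only [List.map_cons, List.map_nil] at h1
    rw [hmp, hSm, hFm, st_true, st_true, zl_true, zl_true, f2, g2, f3 i (v i) (hbase i), ← hu] at h1
    exact h1
  have hB1 := hBLK ℕ c0 n b M _ _ R sit.ra T i hi
  have key := hB1.symm.trans hFI1
  have hout := (hRPB ℕ c0 n b M _ _ R sit.ra T').2.1
  by_cases hj : ∃ j, u ∈ st (bn M) ((S, F, ([v j], Q j), true) :: π)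
  · obtain ⟨j, hj⟩ := hj
    rw [g3 j u hj] at key
    by_cases hjT : j ∈ T'
    · have hB2 := hBLK ℕ c0 n b M _ _ R sit.ra T' j hjT
      have key2 := key.trans hB2
      have hne : i ≠ j := by
        intro e
        rw [e] at hi'
        exact hi' hjT
      rcases lt_or_gt_of_ne hne with h1 | h1
      · exact sit.new1 j i h1 key2.symm
      · exact sit.new1 i j h1 key2
    · refine sit.new0 i ((S, F, ([v j], Q j), true) :: π) (key.trans (fi_id rfl ?_))
      intro l hl
      refine hout l fun x hx k hk => ?_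
      rcases hl x hx with h1 | h1
      · have hkj : k ≠ j := by
          intro e
          rw [e] at hk
          exact hjT hk
        exact fun h2 => Set.disjoint_left.1 (sit.ra.disj k j hkj) h2 h1
      · exact sit.ra.avo k k x h1
  · have hj' : ∀ j, u ∉ st (bn M) ((S, F, ([v j], Q j), true) :: π) := fun j h1 => hj ⟨j, h1⟩
    have hav : ∀ a ∈ dl ((S, F, ([u], []), true) :: π), ∀ k ∈ T',
        a ∉ st (bn M) ((S, F, ([v k], Q k), true) :: π) := by
      intro a ha k _
      rcases mem_dl_cons.1 ha with h1 | h1 | ⟨e, he, h1⟩ | h1 | h1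
      · simp only [List.mem_singleton] at h1
        rw [h1]
        exact hj' k
      · simp at h1
      · exact sit.avF k e he a h1
      · exact sit.ra.avo k k a (List.mem_append_left _ h1)
      · exact sit.av k a h1
    have hspl : ∀ k, st (bn M) ((S, F, ([v k], Q k), true) :: π) ⊆
          st (bn M) ((S, F, ([u], []), true) :: π) ∨
        Disjoint (st (bn M) ((S, F, ([v k], Q k), true) :: π))
          (st (bn M) ((S, F, ([u], []), true) :: π)) := by
      intro k
      by_cases h1 : Disjoint (st (bn M) ((S, F, ([v k], Q k), true) :: π))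
          (st (bn M) ((S, F, ([u], []), true) :: π))
      · exact Or.inr h1
      · left
        rw [Set.not_disjoint_iff] at h1
        obtain ⟨w, hw1, hw2⟩ := h1
        rw [st_true] at hw1 ⊢
        rw [st_true] at hw2 ⊢
        rw [← vc_eq (sit.vc k) (Q k) [] hw1]
        refine cl_mono fun a ha => ?_
        rw [List.mem_singleton] at ha
        rw [ha]
        exact hw2
    have hE := (hINV ℕ c0 n b M _ _ R sit.ra T' ((S, F, ([u], []), true) :: π) hav).2.2
      (fun k _ => hspl k)
    rw [st_true, g2] at hE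
    rw [hE] at key
    refine sit.new0 i ((S, F, ([u], []), true) :: π) (key.trans (fi_id rfl ?_))
    intro l hl
    refine hout l fun x hx k hk => ?_
    rcases hl x hx with h1 | h1
    · intro h2
      have h3 := g3 k x h2
      have h4 : x ∈ h '' st (bn M) ((S, F, ([v i], Q i), true) :: π) := by
        rw [← himg (v i) (hbase i), ← hu, hE]
        exact h1
      obtain ⟨w, hw, rfl⟩ := h4
      rw [himg w hw, ← himg (v i) (hbase i), ← hu] at h3
      apply hj' k
      change u ∈ (fun k => st (bn M) ((S, F, ([v k], Q k), true) :: π)) k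
      simp only
      rw [← h3]
      refine base_mem_cl ?_ List.mem_cons_self
      intro a ha
      rw [List.mem_singleton] at ha
      rw [ha]
      exact huU
    · exact sit.ra.avo k k x h1

end H51FNB

theorem pf_FNB {C : Type} [MeasurableSpace C] (hEXN : T_EXN C) (hMEX : T_MEX C) (hMES : T_MES C)
    (hFNC : T_FNC C) (hBLK : T_BLK C) (hRPB : T_RPB C) (hIOT : T_IOT C) (hINV : T_INV C)
    (hRP0 : T_RP0 C) : T_FNB C := by
  clear hRP0
  intro c0 n b X hX M hM π S F hπ
  by_contra hinf
  have hinf : {D : Set ℕ | ∃ (v : ℕ) (R : List ℕ), Vd (bn M) ((S, F, ([v], R), true) :: π) ∧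
      Vc (bn M) (st (bn M) π) (S ++ zl π) F v ∧
      ¬ sml c0 n b M (S ++ zl π) (st (bn M) ((S, F, ([v], R), true) :: π)) ∧
      D = st (bn M) ((S, F, ([v], R), true) :: π)}.Infinite := hinf
  -- remove the atoms which contain a parameter
  have hfin : {D : Set ℕ | ∃ a ∈ dl π ++ F.flatten,
      D = cl (bn M) (st (bn M) π) (S ++ zl π) F ([a], [])}.Finite := by
    have : {D : Set ℕ | ∃ a ∈ dl π ++ F.flatten,
        D = cl (bn M) (st (bn M) π) (S ++ zl π) F ([a], [])} =
        (fun a => cl (bn M) (st (bn M) π) (S ++ zl π) F ([a], [])) ''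
          {a | a ∈ dl π ++ F.flatten} := by
      ext D
      simp only [Set.mem_ofPred_eq, Set.mem_image]
      exact ⟨fun ⟨a, h1, h2⟩ => ⟨a, h1, h2.symm⟩, fun ⟨a, h1, h2⟩ => ⟨a, h1, h2.symm⟩⟩
    rw [this]
    exact (List.finite_toSet (dl π ++ F.flatten)).image _
  have hinf2 := hinf.diff hfin
  let E := hinf2.natEmbedding
  have hE : ∀ i, ∃ (v : ℕ) (R : List ℕ), Vd (bn M) ((S, F, ([v], R), true) :: π) ∧
      Vc (bn M) (st (bn M) π) (S ++ zl π) F v ∧
      ¬ sml c0 n b M (S ++ zl π) (st (bn M) ((S, F, ([v], R), true) :: π)) ∧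
      (E i : Set ℕ) = st (bn M) ((S, F, ([v], R), true) :: π) := fun i => (E i).2.1
  choose v Q hvv hvc hv3 hv4 using hE
  have heq : ∀ i, ∀ w ∈ st (bn M) ((S, F, ([v i], Q i), true) :: π),
      st (bn M) ((S, F, ([v i], Q i), true) :: π) =
        cl (bn M) (st (bn M) π) (S ++ zl π) F ([w], []) := by
    intro i w hw
    exact (vc_eq (hvc i) (Q i) [] hw).symm
  have hav0 : ∀ i, ∀ a ∈ dl π ++ F.flatten, a ∉ st (bn M) ((S, F, ([v i], Q i), true) :: π) := by
    intro i a ha h1
    apply (E i).2.2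
    exact ⟨a, ha, by rw [hv4 i]; exact heq i a h1⟩
  have hav : ∀ i, ∀ a ∈ dl π, a ∉ st (bn M) ((S, F, ([v i], Q i), true) :: π) :=
    fun i a ha => hav0 i a (List.mem_append_left _ ha)
  have havF : ∀ i, ∀ e ∈ F, ∀ a ∈ e, a ∉ st (bn M) ((S, F, ([v i], Q i), true) :: π) :=
    fun i e he a ha => hav0 i a (List.mem_append_right _ (List.mem_flatten.2 ⟨e, he, ha⟩))
  have hdj : ∀ i j, i ≠ j → Disjoint (st (bn M) ((S, F, ([v i], Q i), true) :: π))
      (st (bn M) ((S, F, ([v j], Q j), true) :: π)) := by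
    intro i j hij
    rw [Set.disjoint_left]
    intro w h1 h2
    apply hij
    apply E.injective
    apply Subtype.ext
    rw [hv4 i, hv4 j, heq i w h1, heq j w h2]
  have hLav : ∀ i, ∀ a ∈ S ++ zl π, a ∉ st (bn M) ((S, F, ([v i], Q i), true) :: π) := by
    intro i a ha
    exact zl_disj (hvv i) a ha
  -- the replacements
  obtain ⟨R, hR⟩ := H51FNB.seq M (fun i f a => BV c0 n a ∧
      FB b M (S ++ zl π) (st (bn M) ((S, F, ([v i], Q i), true) :: π)) a (S ++ zl π)
        (st (bn M) ((S, F, ([v i], Q i), true) :: π)) ∧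
      ¬ InO (Set.range (fun ρ : Pr => ((M, zl ρ, st (bn M) ρ) : Tr C)) ∪
          {t | ∃ j < i, t = (f j, S ++ zl π, st (bn M) ((S, F, ([v j], Q j), true) :: π))})
        a (S ++ zl π) (st (bn M) ((S, F, ([v i], Q i), true) :: π)))
    (by
      intro i f
      refine hEXN c0 n b M (S ++ zl π) _ (hX.val M hM) hX.base (hLav i) (hv3 i) _ ?_
      refine Set.Countable.union (Set.countable_range _) ?_
      have : {t : Tr C | ∃ j < i, t = (f j, S ++ zl π,
          st (bn M) ((S, F, ([v j], Q j), true) :: π))} =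
          (fun j => ((f j, S ++ zl π, st (bn M) ((S, F, ([v j], Q j), true) :: π)) : Tr C)) ''
            {j | j < i} := by
        ext t
        simp only [Set.mem_ofPred_eq, Set.mem_image]
        exact ⟨fun ⟨a, h1, h2⟩ => ⟨a, h1, h2.symm⟩, fun ⟨a, h1, h2⟩ => ⟨a, h1, h2.symm⟩⟩
      rw [this]
      exact (Set.to_countable _).image _)
    (by
      rintro i f f' a hf ⟨h1, h2, h3⟩
      refine ⟨h1, h2, ?_⟩
      rintro ⟨t, ht, h4⟩
      apply h3
      refine ⟨t, ?_, h4⟩
      rcases ht with ht | ⟨j, hj, ht⟩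
      · exact Or.inl ht
      · refine Or.inr ⟨j, hj, ?_⟩
        rw [hf j hj]
        exact ht)
  have ra : RA c0 n b M (fun i => st (bn M) ((S, F, ([v i], Q i), true) :: π))
      (fun _ => S ++ zl π) R :=
    { val := hX.val M hM
      vaR := fun i => (hR i).1
      disj := hdj
      avo := fun _ j => hLav j
      ctl := fun i _ hp ht _ hy => ctl (hvv i) hp ht hy
      fb := fun i => (hR i).2.1
      base := hX.base }
  have sit : H51FNB.Sit c0 n b M π S F v Q R :=
    { vd := hvv
      vc := hvc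
      ra := ra
      av := hav
      avF := havF
      new0 := fun i ρ h1 => (hR i).2.2 ⟨_, Or.inl ⟨ρ, rfl⟩, h1⟩
      new1 := fun i j hj h1 => (hR i).2.2 ⟨_, Or.inr ⟨j, hj, rfl⟩, h1⟩ }
  obtain ⟨y, y', hne, h, hfix, hi1, hi2⟩ := hX.nf
    (fun y => H51FNB.fy M π S F v Q R {i | y i = true}) (dl π ++ (S ++ F.flatten))
    (hMES ℕ c0 n b M _ _ R ra (fun y => {i | y i = true}) (fun i => by
      have h1 : Measurable (fun y : ℕ → Bool => y i) := measurable_pi_apply i
      exact h1 (measurableSet_singleton true)))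
    (fun y => hMEX ℕ c0 n b X hX M hM _ _ R ra _)
  obtain ⟨i, hi⟩ := Function.ne_iff.1 hne
  cases e : y i with
  | true =>
    have e' : y' i = false := by
      rw [e] at hi
      cases e2 : y' i with
      | true => exact absurd e2.symm hi
      | false => rfl
    refine H51FNB.core hFNC hBLK hRPB hIOT hINV sit {i | y i = true} {i | y' i = true} i e ?_ h
      hfix ⟨hi1, hi2⟩
    intro h1
    have h2 : y' i = true := h1
    rw [e'] at h2
    exact Bool.noConfusion h2
  | false =>
    have e' : y' i = true := by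
      rw [e] at hi
      cases e2 : y' i with
      | true => rfl
      | false => exact absurd e2.symm hi
    refine H51FNB.core hFNC hBLK hRPB hIOT hINV sit {i | y' i = true} {i | y i = true} i e' ?_
      h.symm (fun a ha => by
        rw [Equiv.symm_apply_eq]
        exact (hfix a ha).symm) ⟨?_, ?_⟩
    · intro h1
      have h2 : y i = true := h1
      rw [e] at h2
      exact Bool.noConfusion h2
    · intro u w
      rw [hi1, Equiv.apply_symm_apply, Equiv.apply_symm_apply]
    · intro l
      rw [hi2, List.map_map]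
      have : (h : ℕ → ℕ) ∘ (h.symm : ℕ → ℕ) = id := by
        funext x
        exact h.apply_symm_apply x
      rw [this, List.map_id]

end Pool.Agent.CR
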